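import Mathlib

set_option autoImplicit false

namespace Pool.Agent.Results.MP_945a85_co.Four

open Set

/-- the distance graph: a point of `A` and a point of `B` are joined when their distance is `d` -/
def G {n : ℕ} (A B : Set (EuclideanSpace ℝ (Fin n))) (d : ℝ) : SimpleGraph (EuclideanSpace ℝ (Fin n)) :=
  SimpleGraph.fromRel fun p q => p ∈ A ∧ q ∈ B ∧ dist p q = d

noncomputable def g (t x y : ℝ) : EuclideanSpace ℝ (Fin 4) :=
  !₂[t * x, t * y, t * ((x ^ 2 - y ^ 2) / 2), t * (x * y)]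

theorem g_inj {t s x y z w : ℝ} (ht : 0 < t) (hs : 0 < s) (h : x ^ 2 + y ^ 2 = 1) (h' : z ^ 2 + w ^ 2 = 1)
    (e : g t x y = g s z w) : t = s ∧ x = z ∧ y = w := by
  have a : t * x = s * z := congrArg (· 0) e
  have b : t * y = s * w := congrArg (· 1) e
  have : t = s := (pow_left_inj₀ ht.le hs.le two_ne_zero).mp (by
    linear_combination (t * x + s * z) * a + (t * y + s * w) * b - t ^ 2 * h + s ^ 2 * h')
  subst this
  exact ⟨rfl, mul_left_cancel₀ ht.ne' a, mul_left_cancel₀ ht.ne' b⟩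

theorem g_dist {x y z w : ℝ} (h : x ^ 2 + y ^ 2 = 1) (h' : z ^ 2 + w ^ 2 = 1) :
    dist (g 1 x y) (g 2 z w) = √(29 / 4) ↔ (z = -y ∧ w = x) ∨ (z = y ∧ w = -x) := by
  rw [EuclideanSpace.dist_eq, Real.sqrt_inj (by positivity) (by norm_num)]
  simp only [g, Fin.sum_univ_four, Real.dist_eq, sq_abs]
  simp only [Matrix.cons_val]
  have key : (1 * x - 2 * z) ^ 2 + (1 * y - 2 * w) ^ 2 +
      (1 * ((x ^ 2 - y ^ 2) / 2) - 2 * ((z ^ 2 - w ^ 2) / 2)) ^ 2 + (1 * (x * y) - 2 * (z * w)) ^ 2 =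
      29 / 4 - 2 * (x * z + y * w) * (2 + (x * z + y * w)) := by
    linear_combination (1 + (x ^ 2 + y ^ 2 + 1) / 4 + (z ^ 2 + w ^ 2)) * h +
      (4 + (z ^ 2 + w ^ 2 + 1) + 1) * h'
  rw [key]
  constructor
  · intro e
    have c : x * z + y * w = 0 := by
      have : 0 < 2 + (x * z + y * w) := by nlinarith [sq_nonneg (x + z), sq_nonneg (y + w)]
      have k : (x * z + y * w) * (2 + (x * z + y * w)) = 0 := by linarith
      exact (mul_eq_zero.mp k).resolve_right this.ne'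
    have d : (x * w - y * z - 1) * (x * w - y * z + 1) = 0 := by
      linear_combination (z ^ 2 + w ^ 2) * h + h' - (x * z + y * w) * c
    rcases mul_eq_zero.mp d with d | d
    · exact Or.inl ⟨by linear_combination x * c - y * d - z * h, by linear_combination y * c + x * d - w * h⟩
    · exact Or.inr ⟨by linear_combination x * c - y * d - z * h, by linear_combination y * c + x * d - w * h⟩
  · rintro (⟨rfl, rfl⟩ | ⟨rfl, rfl⟩) <;> ring

def S (t : ℝ) : Set (EuclideanSpace ℝ (Fin 4)) := {p | ∃ x y, x ^ 2 + y ^ 2 = 1 ∧ p = g t x y}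

theorem curve {t : ℝ} (ht : 0 < t) : ∃ γ : C(Circle, EuclideanSpace ℝ (Fin 4)),
    Function.Injective γ ∧ S t = range γ := by
  have n : ∀ z : Circle, (z : ℂ).re ^ 2 + (z : ℂ).im ^ 2 = 1 := fun z => by
    have := Circle.normSq_coe z
    rw [Complex.normSq_apply] at this
    linarith
  refine ⟨⟨fun z => g t (z : ℂ).re (z : ℂ).im, by unfold g; fun_prop⟩, fun z w e => ?_, ?_⟩
  · have := g_inj ht ht (n z) (n w) e
    exact Circle.ext (Complex.ext this.2.1 this.2.2)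
  · ext p
    refine ⟨?_, fun ⟨z, e⟩ => ⟨_, _, n z, e.symm⟩⟩
    rintro ⟨x, y, h, rfl⟩
    exact ⟨⟨⟨x, y⟩, by
      simp only [Submonoid.unitSphere, Submonoid.mem_mk, Subsemigroup.mem_mk, mem_sphere_zero_iff_norm,
        Complex.norm_eq_sqrt_sq_add_sq, h, Real.sqrt_one]⟩, rfl⟩

theorem nbr {t x y : ℝ} (ht : t = 1 ∨ t = 2) (h : x ^ 2 + y ^ 2 = 1) :
    (G (S 1) (S 2) √(29 / 4)).neighborSet (g t x y) = {g (3 - t) (-y) x, g (3 - t) y (-x)} := by
  have h1 : (-y) ^ 2 + x ^ 2 = 1 := by linarith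
  have h2 : y ^ 2 + (-x) ^ 2 = 1 := by linarith
  ext q
  simp only [G, SimpleGraph.mem_neighborSet, SimpleGraph.fromRel_adj, mem_insert_iff, mem_singleton_iff]
  rcases ht with rfl | rfl
  · rw [show (3 - 1 : ℝ) = 2 by norm_num]
    constructor
    · rintro ⟨-, ⟨-, ⟨z, w, a, rfl⟩, b⟩ | ⟨-, ⟨z, w, a, b⟩, -⟩⟩
      · rcases (g_dist h a).mp b with ⟨rfl, rfl⟩ | ⟨rfl, rfl⟩ <;> simp
      · simpa using (g_inj one_pos two_pos h a b).1
    · rintro (rfl | rfl)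
      · exact ⟨fun e => by simpa using (g_inj one_pos two_pos h h1 e).1,
          Or.inl ⟨⟨_, _, h, rfl⟩, ⟨_, _, h1, rfl⟩, (g_dist h h1).mpr (by simp)⟩⟩
      · exact ⟨fun e => by simpa using (g_inj one_pos two_pos h h2 e).1,
          Or.inl ⟨⟨_, _, h, rfl⟩, ⟨_, _, h2, rfl⟩, (g_dist h h2).mpr (by simp)⟩⟩
  · rw [show (3 - 2 : ℝ) = 1 by norm_num]
    constructor
    · rintro ⟨-, ⟨⟨z, w, a, b⟩, -⟩ | ⟨⟨z, w, a, rfl⟩, -, b⟩⟩
      · simpa using (g_inj two_pos one_pos h a b).1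
      · rcases (g_dist a h).mp b with ⟨rfl, rfl⟩ | ⟨rfl, rfl⟩ <;> simp
    · rintro (rfl | rfl)
      · exact ⟨fun e => by simpa using (g_inj two_pos one_pos h h1 e).1,
          Or.inr ⟨⟨_, _, h1, rfl⟩, ⟨_, _, h, rfl⟩, (g_dist h1 h).mpr (by simp)⟩⟩
      · exact ⟨fun e => by simpa using (g_inj two_pos one_pos h h2 e).1,
          Or.inr ⟨⟨_, _, h2, rfl⟩, ⟨_, _, h, rfl⟩, (g_dist h2 h).mpr (by simp)⟩⟩

theorem result : ∃ (n : ℕ) (d : ℝ) (A B : Set (EuclideanSpace ℝ (Fin n))), 0 < d ∧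
    (∃ γ : C(Circle, EuclideanSpace ℝ (Fin n)), Function.Injective γ ∧ A = range γ) ∧
    (∃ γ : C(Circle, EuclideanSpace ℝ (Fin n)), Function.Injective γ ∧ B = range γ) ∧
    (∃ (c : ℝ) (v : EuclideanSpace ℝ (Fin n)), c ≠ 0 ∧ B = (fun x => c • x + v) '' A) ∧
    Disjoint A B ∧ (∀ p ∈ A ∪ B, ((G A B d).neighborSet p).ncard = 2) ∧
    (∀ p, {q | (G A B d).Reachable p q}.Finite) ∧ ¬ Coplanar ℝ A := by
  have sm : ∀ x y, (2 : ℝ) • g 1 x y + 0 = g 2 x y := fun x y => by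
    ext i; fin_cases i <;> simp [g]
  have mem : ∀ p ∈ S 1 ∪ S 2, ∃ t x y, (t = 1 ∨ t = 2) ∧ x ^ 2 + y ^ 2 = 1 ∧ p = g t x y := by
    rintro _ (⟨x, y, h, rfl⟩ | ⟨x, y, h, rfl⟩)
    exacts [⟨1, x, y, by simp, h, rfl⟩, ⟨2, x, y, by simp, h, rfl⟩]
  refine ⟨4, √(29 / 4), S 1, S 2, by positivity, curve one_pos, curve two_pos, ⟨2, 0, two_ne_zero, ?_⟩,
    ?_, fun p hp => ?_, fun p => ?_, fun h => ?_⟩
  · ext p
    exact ⟨fun ⟨x, y, h, e⟩ => ⟨_, ⟨x, y, h, rfl⟩, (sm x y).trans e.symm⟩,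
      fun ⟨_, ⟨x, y, h, rfl⟩, e⟩ => ⟨x, y, h, e.symm.trans (sm x y)⟩⟩
  · refine disjoint_left.mpr ?_
    rintro _ ⟨x, y, h, rfl⟩ ⟨z, w, a, b⟩
    simpa using (g_inj one_pos two_pos h a b).1
  · obtain ⟨t, x, y, ht, h, rfl⟩ := mem p hp
    rw [nbr ht h]
    refine ncard_pair fun e => ?_
    have k : 0 < 3 - t := by rcases ht with rfl | rfl <;> norm_num
    obtain ⟨-, a, b⟩ := g_inj k k (by linarith) (by linarith) e
    rw [show x = 0 by linarith, show y = 0 by linarith] at h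
    simp at h
  · by_cases hp : p ∈ S 1 ∪ S 2
    · obtain ⟨t, x, y, ht, h, rfl⟩ := mem p hp
      refine (((toFinite {1, 2}).prod (toFinite {(x, y), (-y, x), (y, -x), (-x, -y)})).image
        fun u : ℝ × ℝ × ℝ => g u.1 u.2.1 u.2.2).subset fun q hq => ?_
      have hq := (SimpleGraph.reachable_iff_reflTransGen _ _).mp hq
      induction hq with
      | refl => exact ⟨(t, x, y), ⟨ht, by simp⟩, rfl⟩
      | tail a b ih =>
        obtain ⟨⟨s, z, w⟩, ⟨c, e⟩, rfl⟩ := ih ((SimpleGraph.reachable_iff_reflTransGen _ _).mpr a)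
        simp only [mem_insert_iff, mem_singleton_iff, Prod.mk.injEq] at c e
        have k : 3 - s ∈ ({1, 2} : Set ℝ) := by rcases c with rfl | rfl <;> norm_num
        rcases (nbr c (by rcases e with ⟨rfl, rfl⟩ | ⟨rfl, rfl⟩ | ⟨rfl, rfl⟩ | ⟨rfl, rfl⟩ <;>
          linarith)).subset b with rfl | rfl
        · exact ⟨(3 - s, -w, z), ⟨k, by
            rcases e with ⟨rfl, rfl⟩ | ⟨rfl, rfl⟩ | ⟨rfl, rfl⟩ | ⟨rfl, rfl⟩ <;> simp⟩, rfl⟩
        · exact ⟨(3 - s, w, -z), ⟨k, by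
            rcases e with ⟨rfl, rfl⟩ | ⟨rfl, rfl⟩ | ⟨rfl, rfl⟩ | ⟨rfl, rfl⟩ <;> simp⟩, rfl⟩
    · refine (finite_singleton p).subset fun q hq => ?_
      rcases ((SimpleGraph.reachable_iff_reflTransGen _ _).mp hq).cases_head with e | ⟨r, e, -⟩
      · exact e.symm
      · exact absurd (e.2.elim (fun a => Or.inl a.1) fun a => Or.inr a.2.1) hp
  · let v : Fin 3 → EuclideanSpace ℝ (Fin 4) :=
      ![g 1 0 1 -ᵥ g 1 1 0, g 1 (-1) 0 -ᵥ g 1 1 0, g 1 0 (-1) -ᵥ g 1 1 0]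
    have li : LinearIndependent ℝ v := by
      rw [Fintype.linearIndependent_iff]
      intro c e i
      have e0 := congrArg (· 0) e
      have e1 := congrArg (· 1) e
      have e2 := congrArg (· 2) e
      simp [v, g, Fin.sum_univ_three] at e0 e1 e2
      fin_cases i <;> simp <;> linarith
    have m : ∀ x y : ℝ, x ^ 2 + y ^ 2 = 1 → g 1 x y -ᵥ g 1 1 0 ∈ vectorSpan ℝ (S 1) := fun x y e =>
      vsub_mem_vectorSpan ℝ ⟨x, y, e, rfl⟩ ⟨1, 0, by norm_num, rfl⟩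
    have hv : ∀ i, v i ∈ vectorSpan ℝ (S 1) := fun i => by
      fin_cases i
      exacts [m 0 1 (by norm_num), m (-1) 0 (by norm_num), m 0 (-1) (by norm_num)]
    have k : Submodule.span ℝ (range v) ≤ vectorSpan ℝ (S 1) :=
      Submodule.span_le.mpr (range_subset_iff.mpr hv)
    have := (Submodule.finrank_mono k).trans (coplanar_iff_finrank_le_two.mp h)
    rw [finrank_span_eq_card li] at this
    simp at this

end Pool.Agent.Results.MP_945a85_co.Four
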